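import Pool.Agent.U155.Lac.Trig

set_option autoImplicit false

namespace Pool.Agent.U155.Lac

open MeasureTheory AddCircle

theorem sq_norm_eq_integral {T : ℝ} [hT : Fact (0 < T)] (F : Lp ℂ 2 <| @haarAddCircle T hT) :
    ‖F‖ ^ 2 = ∫ t : AddCircle T, ‖F t‖ ^ 2 ∂haarAddCircle := by
  have H₃ := congr_arg RCLike.re (@L2.inner_def (AddCircle T) ℂ ℂ _ _ _ _ _ F F)
  rw [← integral_re] at H₃
  · simp only [← norm_sq_eq_re_inner] at H₃
    exact H₃
  · exact L2.integrable_inner F F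

theorem fourier_coe_ee (k : ℤ) (x : ℝ) :
    (fourier k (x : AddCircle (2 * Real.pi)) : ℂ) = ee k x := by
  rw [fourier_coe_apply]
  unfold ee
  congr 1
  have : (Real.pi : ℂ) ≠ 0 := by exact_mod_cast Real.pi_ne_zero
  push_cast
  field_simp

/-- square integrable functions on `[0, 2π]` are approximated by trigonometric polynomials -/
theorem exists_approx {f : ℝ → ℂ} (hf : MemLp f 2 (volume.restrict (Set.Ioc 0 (2 * Real.pi))))
    {δ : ℝ} (hδ : 0 < δ) :
    ∃ D : ℕ, ∃ φ ∈ TD D, ∫ x in (0 : ℝ)..2 * Real.pi, ‖f x - φ x‖ ^ 2 < δ := by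
  have hT : Fact (0 < 2 * Real.pi) := ⟨by positivity⟩
  have hf' : MemLp f 2 (volume.restrict (Set.Ioc 0 (0 + 2 * Real.pi))) := by
    rw [zero_add]; exact hf
  have h := hf'.memLp_liftIoc.haarAddCircle
  set F := h.toLp with hF
  have hs := hasSum_fourier_series_L2 F
  have hδ' : 0 < Real.sqrt (δ / (2 * Real.pi)) := Real.sqrt_pos.mpr (by positivity)
  have hs' := (Metric.tendsto_nhds.mp hs) _ hδ'
  obtain ⟨s, hs''⟩ := hs'.exists
  rw [SummationFilter.unconditional_filter] at hs'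
  set c : ℤ → ℂ := fun i => fourierCoeff F i with hc
  refine ⟨s.sup Int.natAbs, ∑ i ∈ s, c i • ee i, ?_, ?_⟩
  · refine Submodule.sum_mem _ fun i hi => Submodule.smul_mem _ _ (ee_mem ?_)
    have : i.natAbs ≤ s.sup Int.natAbs := Finset.le_sup hi
    rw [Int.abs_eq_natAbs]
    exact_mod_cast this
  · rw [dist_eq_norm] at hs''
    have h1 : ‖F - ∑ i ∈ s, c i • fourierLp 2 i‖ ^ 2 < δ / (2 * Real.pi) := by
      rw [← norm_neg, neg_sub]
      calc _ < (Real.sqrt (δ / (2 * Real.pi))) ^ 2 := by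
            apply pow_lt_pow_left₀ hs'' (norm_nonneg _) two_ne_zero
        _ = _ := Real.sq_sqrt (by positivity)
    rw [sq_norm_eq_integral] at h1
    set G : C(AddCircle (2 * Real.pi), ℂ) := ∑ i ∈ s, c i • fourier i with hG
    have h2 : ∑ i ∈ s, c i • fourierLp 2 i = ContinuousMap.toLp (E := ℂ) 2 haarAddCircle ℂ G := by
      rw [hG, map_sum]
      simp only [map_smul]
    have h3 : ∫ t : AddCircle (2 * Real.pi), ‖(F - ∑ i ∈ s, c i • fourierLp 2 i : Lp ℂ 2 haarAddCircle) t‖ ^ 2 ∂haarAddCircle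
        = ∫ t : AddCircle (2 * Real.pi), ‖AddCircle.liftIoc (2 * Real.pi) 0 f t - G t‖ ^ 2 ∂haarAddCircle := by
      apply integral_congr_ae
      rw [h2]
      filter_upwards [Lp.coeFn_sub F (ContinuousMap.toLp (E := ℂ) 2 haarAddCircle ℂ G),
        ContinuousMap.coeFn_toLp (𝕜 := ℂ) (p := 2) haarAddCircle G, h.coeFn_toLp] with t ht1 ht2 ht3
      rw [ht1, Pi.sub_apply, ht2, hF, ht3]
    rw [h3, AddCircle.integral_haarAddCircle, ← AddCircle.intervalIntegral_preimage (2 * Real.pi) 0,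
      smul_eq_mul, lt_div_iff₀ (by positivity), zero_add] at h1
    have h4 : ∫ x in (0 : ℝ)..2 * Real.pi,
          ‖AddCircle.liftIoc (2 * Real.pi) 0 f (x : AddCircle (2 * Real.pi)) - G (x : AddCircle (2 * Real.pi))‖ ^ 2
        = ∫ x in (0 : ℝ)..2 * Real.pi, ‖f x - (∑ i ∈ s, c i • ee i) x‖ ^ 2 := by
      apply intervalIntegral.integral_congr_ae
      refine .of_forall fun x hx => ?_
      rw [Set.uIoc_of_le (by positivity)] at hx
      rw [liftIoc_coe_apply (by rw [zero_add]; exact hx)]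
      congr 3
      rw [hG, ContinuousMap.sum_apply, Finset.sum_apply]
      refine Finset.sum_congr rfl fun i _ => ?_
      rw [ContinuousMap.smul_apply, fourier_coe_ee, Pi.smul_apply]
    rw [h4] at h1
    calc _ = (2 * Real.pi)⁻¹ * (∫ x in (0 : ℝ)..2 * Real.pi, ‖f x - (∑ i ∈ s, c i • ee i) x‖ ^ 2) * (2 * Real.pi) := by
          field_simp
      _ < δ := h1

end Pool.Agent.U155.Lac
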