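import Pool.Agent.U155.Lac.Main

set_option autoImplicit false

namespace Pool.Agent.U155.Lac

open MeasureTheory Metric Filter Topology

theorem sum_freq_le {n : ℕ → ℕ} {q : ℝ} (hq : 1 < q)
    (hn : ∀ k, q * (n k : ℝ) ≤ (n (k + 1) : ℝ)) (m : ℕ) :
    ∑ k ∈ Finset.range m, (n k : ℝ) ≤ n m / (q - 1) := by
  have hq' : 0 < q - 1 := by linarith
  induction m with
  | zero => simp; positivity
  | succ m ih =>
    rw [Finset.sum_range_succ, le_div_iff₀ hq']
    rw [le_div_iff₀ hq'] at ih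
    nlinarith [hn m]

theorem abs_cos_sub_cos_le (a b : ℝ) : |Real.cos a - Real.cos b| ≤ |a - b| := by
  have h := Real.cos_sub_cos a b
  rw [h, abs_mul, abs_mul]
  have h1 : |Real.sin ((a + b) / 2)| ≤ 1 := Real.abs_sin_le_one _
  have h2 : |Real.sin ((a - b) / 2)| ≤ |(a - b) / 2| := Real.abs_sin_le_abs
  have h3 : |(-2 : ℝ)| = 2 := by norm_num
  rw [h3]
  have h4 : |(a - b) / 2| = |a - b| / 2 := by rw [abs_div]; norm_num
  rw [h4] at h2
  nlinarith [abs_nonneg (Real.sin ((a + b) / 2)), abs_nonneg (Real.sin ((a - b) / 2)), abs_nonneg (a - b)]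

theorem S_lipschitz {n : ℕ → ℕ} {q : ℝ} (hq : 1 < q)
    (hn : ∀ k, q * (n k : ℝ) ≤ (n (k + 1) : ℝ)) (m : ℕ) (x y : ℝ) :
    |S n m x - S n m y| ≤ n m / (q - 1) * |x - y| := by
  unfold S
  rw [← Finset.sum_sub_distrib]
  refine (Finset.abs_sum_le_sum_abs _ _).trans ?_
  refine le_trans ?_ (mul_le_mul_of_nonneg_right (sum_freq_le hq hn m) (abs_nonneg _))
  rw [Finset.sum_mul]
  apply Finset.sum_le_sum
  intro k _
  refine (abs_cos_sub_cos_le _ _).trans ?_
  rw [← mul_sub, abs_mul, abs_of_nonneg (Nat.cast_nonneg _)]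

theorem S_succ (n : ℕ → ℕ) (m : ℕ) (x : ℝ) : S n (m + 1) x = S n m x + Real.cos (n m * x) := by
  unfold S
  rw [Finset.sum_range_succ]

/-- IVT: an upcrossing of `ξ` at `x` between the times `m` and `m + 1` produces a point `t` within
`π / n_m` of `x` where `S_m` or `S_{m+1}` equals `ξ`. -/
theorem exists_hit_up {n : ℕ → ℕ} (hpos : ∀ k, 0 < n k) {m : ℕ} {x ξ : ℝ}
    (h1 : S n m x < ξ) (h2 : ξ < S n (m + 1) x) :
    ∃ t, |t - x| ≤ Real.pi / n m ∧ (S n m t = ξ ∨ S n (m + 1) t = ξ) := by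
  have hn0 : (0 : ℝ) < n m := by exact_mod_cast hpos m
  have hpi := Real.pi_pos
  set y : ℝ := x + Real.pi / n m with hy
  have hxy : x ≤ y := by rw [hy]; have : 0 < Real.pi / n m := by positivity
                         linarith
  have hcos : Real.cos (n m * y) = - Real.cos (n m * x) := by
    have : (n m : ℝ) * y = n m * x + Real.pi := by
      rw [hy]; field_simp
    rw [this, Real.cos_add_pi]
  have hcx : 0 < Real.cos (n m * x) := by
    rw [S_succ] at h2
    linarith
  have hy' : S n (m + 1) y < S n m y := by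
    rw [S_succ, hcos]
    linarith
  have hball : ∀ t, t ∈ Set.Icc x y → |t - x| ≤ Real.pi / n m := by
    rintro t ⟨ht1, ht2⟩
    rw [abs_of_nonneg (by linarith)]
    rw [hy] at ht2
    linarith
  rcases le_or_gt ξ (S n m y) with h | h
  · obtain ⟨t, ht, ht'⟩ := intermediate_value_Icc hxy (continuous_S n m).continuousOn ⟨h1.le, h⟩
    exact ⟨t, hball t ht, Or.inl ht'⟩
  · obtain ⟨t, ht, ht'⟩ := intermediate_value_Icc' hxy (continuous_S n (m + 1)).continuousOn
      ⟨(hy'.trans h).le, h2.le⟩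
    exact ⟨t, hball t ht, Or.inr ht'⟩

theorem exists_hit_down {n : ℕ → ℕ} (hpos : ∀ k, 0 < n k) {m : ℕ} {x ξ : ℝ}
    (h1 : ξ < S n m x) (h2 : S n (m + 1) x < ξ) :
    ∃ t, |t - x| ≤ Real.pi / n m ∧ (S n m t = ξ ∨ S n (m + 1) t = ξ) := by
  have hn0 : (0 : ℝ) < n m := by exact_mod_cast hpos m
  have hpi := Real.pi_pos
  set y : ℝ := x + Real.pi / n m with hy
  have hxy : x ≤ y := by rw [hy]; have : 0 < Real.pi / n m := by positivity
                         linarith
  have hcos : Real.cos (n m * y) = - Real.cos (n m * x) := by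
    have : (n m : ℝ) * y = n m * x + Real.pi := by
      rw [hy]; field_simp
    rw [this, Real.cos_add_pi]
  have hcx : Real.cos (n m * x) < 0 := by
    rw [S_succ] at h2
    linarith
  have hy' : S n m y < S n (m + 1) y := by
    rw [S_succ, hcos]
    linarith
  have hball : ∀ t, t ∈ Set.Icc x y → |t - x| ≤ Real.pi / n m := by
    rintro t ⟨ht1, ht2⟩
    rw [abs_of_nonneg (by linarith)]
    rw [hy] at ht2
    linarith
  rcases le_or_gt (S n m y) ξ with h | h
  · obtain ⟨t, ht, ht'⟩ := intermediate_value_Icc' hxy (continuous_S n m).continuousOn ⟨h, h1.le⟩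
    exact ⟨t, hball t ht, Or.inl ht'⟩
  · obtain ⟨t, ht, ht'⟩ := intermediate_value_Icc hxy (continuous_S n (m + 1)).continuousOn
      ⟨h2.le, (h.trans hy').le⟩
    exact ⟨t, hball t ht, Or.inr ht'⟩

end Pool.Agent.U155.Lac
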