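import Pool.Agent.U155.Lac.Cross

set_option autoImplicit false

namespace Pool.Agent.U155.Lac

open MeasureTheory Metric Filter Topology

theorem S_lipschitz_succ {n : ℕ → ℕ} {q : ℝ} (hq : 1 < q)
    (hn : ∀ k, q * (n k : ℝ) ≤ (n (k + 1) : ℝ)) (m : ℕ) (x y : ℝ) :
    |S n (m + 1) x - S n (m + 1) y| ≤ q / (q - 1) * n m * |x - y| := by
  have hq' : 0 < q - 1 := by linarith
  have h1 := S_lipschitz hq hn m x y
  have h2 := abs_cos_sub_cos_le (n m * x) (n m * y)
  rw [← mul_sub, abs_mul, abs_of_nonneg (Nat.cast_nonneg (n m) : (0 : ℝ) ≤ n m)] at h2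
  have e : S n (m + 1) x - S n (m + 1) y =
      (S n m x - S n m y) + (Real.cos (n m * x) - Real.cos (n m * y)) := by
    rw [S_succ, S_succ]; ring
  have e2 : q / (q - 1) * n m * |x - y| = n m / (q - 1) * |x - y| + n m * |x - y| := by
    field_simp
    ring
  rw [e, e2]
  exact (abs_add_le _ _).trans (add_le_add h1 h2)

theorem S_lipschitz_same {n : ℕ → ℕ} {q : ℝ} (hq : 1 < q)
    (hn : ∀ k, q * (n k : ℝ) ≤ (n (k + 1) : ℝ)) (m : ℕ) (x y : ℝ) :
    |S n m x - S n m y| ≤ q / (q - 1) * n m * |x - y| := by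
  have hq' : 0 < q - 1 := by linarith
  refine (S_lipschitz hq hn m x y).trans ?_
  apply mul_le_mul_of_nonneg_right _ (abs_nonneg _)
  rw [div_mul_eq_mul_div]
  apply div_le_div_of_nonneg_right _ hq'.le
  have : (0 : ℝ) ≤ n m := Nat.cast_nonneg _
  nlinarith

/-- The measure of the bad set is zero. -/
theorem null_bad {n : ℕ → ℕ} {q : ℝ} (hq : 1 < q) (hpos : ∀ k, 0 < n k)
    (hn : ∀ k, q * (n k : ℝ) ≤ (n (k + 1) : ℝ)) (ξ ε : ℝ) (hε : 0 < ε) (M : ℕ) :
    volume ({x : ℝ | ∀ m, M ≤ m → ε ≤ |S n m x - ξ|} ∩ Set.Ioc 0 (2 * Real.pi)) = 0 := by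
  have hq' : 0 < q - 1 := by linarith
  have hpi := Real.pi_pos
  have hmono := gap_strictMono hq hpos hn
  set E0 : Set ℝ := {x : ℝ | ∀ m, M ≤ m → ε ≤ |S n m x - ξ|} with hE0
  set E : Set ℝ := E0 ∩ Set.Ioc 0 (2 * Real.pi) with hEdef
  have hE0m : MeasurableSet E0 := by
    have : E0 = ⋂ m : ℕ, ⋂ _ : M ≤ m, {x | ε ≤ |S n m x - ξ|} := by
      ext x; simp [hE0]
    rw [this]
    apply MeasurableSet.iInter; intro m
    apply MeasurableSet.iInter; intro _
    exact (isClosed_le continuous_const ((continuous_S n m).sub continuous_const).abs).measurableSet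
  have hEm : MeasurableSet E := hE0m.inter measurableSet_Ioc
  set A : ℕ → Set ℝ := fun M' => E ∩ {x | ∀ m, M' ≤ m → S n m x ≤ ξ} with hA
  set B : ℕ → Set ℝ := fun M' => E ∩ {x | ∀ m, M' ≤ m → ξ ≤ S n m x} with hB
  have hAm : ∀ M', volume (A M') = 0 := by
    intro M'
    have hm : MeasurableSet (A M') := by
      apply hEm.inter
      have : {x | ∀ m, M' ≤ m → S n m x ≤ ξ} = ⋂ m : ℕ, ⋂ _ : M' ≤ m, {x | S n m x ≤ ξ} := by
        ext x; simp
      rw [this]
      apply MeasurableSet.iInter; intro m
      apply MeasurableSet.iInter; intro _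
      exact (isClosed_le (continuous_S n m) continuous_const).measurableSet
    apply one_sided hq hpos hn hm _ ξ M' _
    · exact fun x hx => hx.1.2
    · exact fun m hm => Or.inr (fun x hx => hx.2 m hm)
  have hBm : ∀ M', volume (B M') = 0 := by
    intro M'
    have hm : MeasurableSet (B M') := by
      apply hEm.inter
      have : {x | ∀ m, M' ≤ m → ξ ≤ S n m x} = ⋂ m : ℕ, ⋂ _ : M' ≤ m, {x | ξ ≤ S n m x} := by
        ext x; simp
      rw [this]
      apply MeasurableSet.iInter; intro m
      apply MeasurableSet.iInter; intro _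
      exact (isClosed_le continuous_const (continuous_S n m)).measurableSet
    apply one_sided hq hpos hn hm _ ξ M' _
    · exact fun x hx => hx.1.2
    · exact fun m hm => Or.inl (fun x hx => hx.2 m hm)
  set C : ℝ := q / (q - 1) with hC
  have hCpos : 0 < C := by positivity
  set κ : ℝ := min 1 (ε / (2 * C)) with hκ
  have hκpos : 0 < κ := lt_min one_pos (by positivity)
  set δ : ℝ := κ / (Real.pi + 1) with hδ
  have hδpos : 0 < δ := by positivity
  have hδ1 : δ < 1 := by
    rw [hδ, div_lt_one (by positivity)]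
    have : κ ≤ 1 := min_le_left _ _
    linarith
  have hae := Besicovitch.ae_tendsto_measure_inter_div (volume : Measure ℝ) E
  have hmem : ∀ᵐ x ∂(volume.restrict E), x ∈ E := ae_restrict_mem hEm
  have hU : ∀ᵐ x ∂(volume.restrict E), x ∈ (⋃ M', A M') ∪ (⋃ M', B M') := by
    filter_upwards [hae, hmem] with x hx hxE
    -- the radii
    have hρ : Tendsto (fun m : ℕ => (Real.pi + 1) / (n m : ℝ)) atTop (𝓝[>] 0) := by
      rw [tendsto_nhdsWithin_iff]
      constructor
      · have h1 : Tendsto (fun m : ℕ => (n m : ℝ)) atTop atTop :=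
          tendsto_natCast_atTop_atTop.comp hmono.tendsto_atTop
        exact Tendsto.div_atTop tendsto_const_nhds h1
      · refine Eventually.of_forall fun m => ?_
        have : (0 : ℝ) < n m := by exact_mod_cast hpos m
        simp only [Set.mem_Ioi]
        positivity
    have h1 := hx.comp hρ
    have h2 : ENNReal.ofReal (1 - δ) < 1 := by
      rw [← ENNReal.ofReal_one]
      exact (ENNReal.ofReal_lt_ofReal_iff one_pos).mpr (by linarith)
    have h3 := h1.eventually (lt_mem_nhds h2)
    obtain ⟨M₁, hM₁⟩ := eventually_atTop.mp h3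
    set M' := max M M₁ with hM'
    have nohit : ∀ m, M' ≤ m → ¬ ∃ t, |t - x| ≤ Real.pi / n m ∧ (S n m t = ξ ∨ S n (m + 1) t = ξ) := by
      rintro m hm ⟨t, ht, hcase⟩
      have hn0 : (0 : ℝ) < n m := by exact_mod_cast hpos m
      have hmM : M ≤ m := (le_max_left _ _).trans hm
      have hm1 := hM₁ m ((le_max_right _ _).trans hm)
      simp only [Function.comp] at hm1
      set ρ : ℝ := (Real.pi + 1) / n m with hρdef
      have hρpos : 0 < ρ := by positivity
      set ρ' : ℝ := κ / n m with hρ'
      have hρ'pos : 0 < ρ' := by positivity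
      have hsub : closedBall t ρ' ⊆ closedBall x ρ := by
        intro y hy
        rw [mem_closedBall, Real.dist_eq] at hy ⊢
        have h4 : |y - x| ≤ |y - t| + |t - x| := by
          have := abs_add_le (y - t) (t - x)
          rwa [sub_add_sub_cancel] at this
        have h5 : ρ' ≤ 1 / n m := by
          rw [hρ']
          exact div_le_div_of_nonneg_right (min_le_left _ _) hn0.le
        have h6 : ρ = Real.pi / n m + 1 / n m := by rw [hρdef]; ring
        linarith
      have hdisj : Disjoint (E ∩ closedBall x ρ) (closedBall t ρ') := by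
        rw [Set.disjoint_left]
        rintro y ⟨hyE, _⟩ hyt
        rw [mem_closedBall, Real.dist_eq] at hyt
        have hlip : ∀ j, (j = m ∨ j = m + 1) → |S n j y - S n j t| ≤ C * n m * |y - t| := by
          rintro j (rfl | rfl)
          · exact S_lipschitz_same hq hn _ _ _
          · exact S_lipschitz_succ hq hn _ _ _
        have hsmall : C * n m * |y - t| < ε := by
          have h5 : C * n m * |y - t| ≤ C * n m * (κ / n m) :=
            mul_le_mul_of_nonneg_left hyt (by positivity)
          have h6 : C * n m * (κ / n m) = C * κ := by field_simp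
          have h7 : C * κ ≤ C * (ε / (2 * C)) :=
            mul_le_mul_of_nonneg_left (min_le_right _ _) hCpos.le
          have h8 : C * (ε / (2 * C)) = ε / 2 := by field_simp
          linarith
        rcases hcase with h | h
        · have h5 := hlip m (Or.inl rfl)
          rw [h] at h5
          have h6 := hyE.1 m hmM
          linarith
        · have h5 := hlip (m + 1) (Or.inr rfl)
          rw [h] at h5
          have h6 := hyE.1 (m + 1) (by omega)
          linarith
      have hvol : volume (E ∩ closedBall x ρ) + ENNReal.ofReal (2 * ρ') ≤ ENNReal.ofReal (2 * ρ) := by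
        rw [← Real.volume_closedBall t ρ', ← Real.volume_closedBall x ρ,
          ← measure_union hdisj measurableSet_closedBall]
        exact measure_mono (Set.union_subset Set.inter_subset_right hsub)
      rw [Real.volume_closedBall, ENNReal.lt_div_iff_mul_lt (Or.inl (by
          simp only [ne_eq, ENNReal.ofReal_eq_zero, not_le]; positivity)) (Or.inl ENNReal.ofReal_ne_top),
        ← ENNReal.ofReal_mul (by linarith)] at hm1
      have h9 := ENNReal.add_lt_add_right (ENNReal.ofReal_ne_top (r := 2 * ρ')) hm1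
      rw [← ENNReal.ofReal_add (by have : 0 < 1 - δ := by linarith
                                   positivity) (by positivity)] at h9
      have h10 : (1 - δ) * (2 * ρ) + 2 * ρ' = 2 * ρ := by
        rw [hδ, hρ', hρdef]
        field_simp
        ring
      rw [h10] at h9
      exact absurd (h9.trans_le hvol) (lt_irrefl _)
    have hne : ∀ m, M' ≤ m → S n m x ≠ ξ := by
      intro m hm h
      have h4 := hxE.1 m ((le_max_left _ _).trans hm)
      rw [h, sub_self, abs_zero] at h4
      linarith
    rcases lt_or_gt_of_ne (hne M' le_rfl) with h | h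
    · left
      refine Set.mem_iUnion.mpr ⟨M', hxE, ?_⟩
      intro m hm
      have : S n m x < ξ := by
        induction m, hm using Nat.le_induction with
        | base => exact h
        | succ m hm ih =>
          rcases lt_or_gt_of_ne (hne (m + 1) (by omega)) with h' | h'
          · exact h'
          · exact absurd (exists_hit_up hpos ih h') (nohit m hm)
      exact this.le
    · right
      refine Set.mem_iUnion.mpr ⟨M', hxE, ?_⟩
      intro m hm
      have : ξ < S n m x := by
        induction m, hm using Nat.le_induction with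
        | base => exact h
        | succ m hm ih =>
          rcases lt_or_gt_of_ne (hne (m + 1) (by omega)) with h' | h'
          · exact absurd (exists_hit_down hpos ih h') (nohit m hm)
          · exact h'
      exact this.le
  have hUnull : volume ((⋃ M', A M') ∪ (⋃ M', B M')) = 0 := by
    rw [measure_union_null_iff]
    exact ⟨measure_iUnion_null hAm, measure_iUnion_null hBm⟩
  rw [ae_restrict_iff' hEm] at hU
  have h4 : volume {x | ¬ (x ∈ E → x ∈ (⋃ M', A M') ∪ (⋃ M', B M'))} = 0 := hU
  refine measure_mono_null ?_ (measure_union_null h4 hUnull)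
  intro x hx
  by_cases h : x ∈ (⋃ M', A M') ∪ (⋃ M', B M')
  · exact Or.inr h
  · left
    intro h'
    exact h (h' hx)

theorem main {n : ℕ → ℕ} {q : ℝ} (hq : 1 < q) (hpos : ∀ k, 0 < n k)
    (hn : ∀ k, q * (n k : ℝ) ≤ (n (k + 1) : ℝ)) :
    volume {x : ℝ | x ∈ Set.Ico 0 (2 * Real.pi) ∧
          ∀ ξ : ℝ, ∀ ε : ℝ, 0 < ε → ∃ᶠ m in atTop, |S n m x - ξ| < ε}
        = ENNReal.ofReal (2 * Real.pi) := by
  set G : Set ℝ := {x : ℝ | ∀ ξ : ℝ, ∀ ε : ℝ, 0 < ε → ∃ᶠ m in atTop, |S n m x - ξ| < ε} with hG
  have hset : {x : ℝ | x ∈ Set.Ico 0 (2 * Real.pi) ∧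
          ∀ ξ : ℝ, ∀ ε : ℝ, 0 < ε → ∃ᶠ m in atTop, |S n m x - ξ| < ε} = G ∩ Set.Ico 0 (2 * Real.pi) := by
    ext x
    simp only [hG, Set.mem_inter_iff, Set.mem_ofPred_eq]
    exact and_comm
  rw [hset]
  -- the bad set
  set Bad : Set ℝ := ⋃ ξ : ℚ, ⋃ k : ℕ, ⋃ M : ℕ,
    ({x : ℝ | ∀ m, M ≤ m → (1 / ((k : ℝ) + 1)) ≤ |S n m x - ξ|} ∩ Set.Ioc 0 (2 * Real.pi)) with hBad
  have hBad0 : volume Bad = 0 := by
    apply measure_iUnion_null; intro ξ
    apply measure_iUnion_null; intro k
    apply measure_iUnion_null; intro M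
    exact null_bad hq hpos hn _ _ (by positivity) M
  have hcover : Set.Ioo 0 (2 * Real.pi) \ Bad ⊆ G ∩ Set.Ico 0 (2 * Real.pi) := by
    rintro x ⟨hx, hxB⟩
    refine ⟨?_, hx.1.le, hx.2⟩
    intro ξ ε hε
    obtain ⟨k, hk⟩ := exists_nat_one_div_lt (show 0 < ε / 2 by positivity)
    obtain ⟨ξ', hξ1, hξ2⟩ := exists_rat_btwn (show ξ - ε / 2 < ξ by linarith)
    by_contra hcon
    rw [not_frequently] at hcon
    obtain ⟨M, hM⟩ := eventually_atTop.mp hcon
    apply hxB
    rw [hBad]
    simp only [Set.mem_iUnion]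
    refine ⟨ξ', k, M, ?_, hx.1, hx.2.le⟩
    intro m hm
    by_contra hlt
    rw [not_le] at hlt
    apply hM m hm
    have h1 : |S n m x - ξ| ≤ |S n m x - ξ'| + |(ξ' : ℝ) - ξ| := by
      have := abs_add_le (S n m x - ξ') (ξ' - ξ)
      rwa [sub_add_sub_cancel] at this
    have h2 : |(ξ' : ℝ) - ξ| < ε / 2 := by
      rw [abs_lt]
      constructor <;> linarith
    linarith
  apply le_antisymm
  · calc volume (G ∩ Set.Ico 0 (2 * Real.pi)) ≤ volume (Set.Ico 0 (2 * Real.pi)) :=
          measure_mono Set.inter_subset_right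
      _ = ENNReal.ofReal (2 * Real.pi) := by rw [Real.volume_Ico, sub_zero]
  · calc ENNReal.ofReal (2 * Real.pi) = volume (Set.Ioo 0 (2 * Real.pi)) := by
          rw [Real.volume_Ioo, sub_zero]
      _ = volume (Set.Ioo 0 (2 * Real.pi) \ Bad) := (measure_sdiff_null hBad0).symm
      _ ≤ _ := measure_mono hcover

end Pool.Agent.U155.Lac
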