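import Pool.Agent.U155.Lac.Riesz

set_option autoImplicit false

namespace Pool.Agent.U155.Lac

variable {n : ℕ → ℕ} {q : ℝ}

theorem gap_pow (hq : 1 < q) (hn : ∀ k, q * (n k : ℝ) ≤ (n (k + 1) : ℝ)) (k i : ℕ) :
    q ^ i * (n k : ℝ) ≤ (n (k + i) : ℝ) := by
  induction i with
  | zero => simp
  | succ i ih =>
    calc q ^ (i + 1) * (n k : ℝ) = q * (q ^ i * n k) := by ring
      _ ≤ q * n (k + i) := by
          apply mul_le_mul_of_nonneg_left ih (by linarith)
      _ ≤ _ := hn _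

theorem gap_strictMono (hq : 1 < q) (hpos : ∀ k, 0 < n k)
    (hn : ∀ k, q * (n k : ℝ) ≤ (n (k + 1) : ℝ)) : StrictMono n := by
  apply strictMono_nat_of_lt_succ
  intro k
  have h1 : (0 : ℝ) < n k := by exact_mod_cast hpos k
  have h2 : (n k : ℝ) < n (k + 1) := by nlinarith [hn k]
  exact_mod_cast h2

/-- degree of the Riesz product without cutoff -/
theorem TT_le_zero (n : ℕ → ℕ) (r k₀ m : ℕ) : TT n r k₀ m ≤ TT n r 0 m := by
  unfold TT
  apply Finset.sum_le_sum
  intro k _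
  by_cases h : k₀ ≤ k ∧ r ∣ k
  · rw [if_pos h, if_pos ⟨Nat.zero_le _, h.2⟩]
  · rw [if_neg h]
    exact Nat.zero_le _

theorem TT_bound (hq : 1 < q) (hpos : ∀ k, 0 < n k) (hn : ∀ k, q * (n k : ℝ) ≤ (n (k + 1) : ℝ))
    {r : ℕ} (hr : 1 ≤ r) {a : ℝ} (ha : 0 ≤ a) (hR : a + 1 ≤ a * q ^ r) (j : ℕ) :
    (TT n r 0 (r * j) : ℝ) ≤ a * n (r * j) ∧
    ∀ i, 1 ≤ i → i ≤ r → (TT n r 0 (r * j + i) : ℝ) ≤ (a + 1) / q * n (r * j + i) := by
  have key : ∀ j, (TT n r 0 (r * j) : ℝ) ≤ a * n (r * j) →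
      ∀ i, 1 ≤ i → i ≤ r → (TT n r 0 (r * j + i) : ℝ) ≤ (a + 1) * n (r * j) := by
    intro j hj i hi
    induction i, hi using Nat.le_induction with
    | base =>
      intro _
      rw [TT_succ_pos ⟨Nat.zero_le _, dvd_mul_right r j⟩]
      push_cast
      linarith
    | succ i hi ih =>
      intro hir
      rw [← add_assoc, TT_succ_neg]
      · exact ih (by omega)
      · rintro ⟨_, h⟩
        rw [Nat.dvd_add_right (dvd_mul_right r j)] at h
        have := Nat.le_of_dvd (by omega) h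
        omega
  have h0 : ∀ j, (TT n r 0 (r * j) : ℝ) ≤ a * n (r * j) := by
    intro j
    induction j with
    | zero =>
      have : TT n r 0 (r * 0) = 0 := by simp [TT]
      rw [this]
      push_cast
      positivity
    | succ j ih =>
      have h1 := key j ih r hr le_rfl
      have h2 := gap_pow hq hn (r * j) r
      rw [mul_add, mul_one]
      have h3 : (0 : ℝ) ≤ n (r * j) := Nat.cast_nonneg _
      calc _ ≤ _ := h1
        _ ≤ a * q ^ r * n (r * j) := by
            apply mul_le_mul_of_nonneg_right hR h3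
        _ = a * (q ^ r * n (r * j)) := by ring
        _ ≤ _ := by
            apply mul_le_mul_of_nonneg_left h2 ha
  refine ⟨h0 j, ?_⟩
  intro i hi hir
  have h1 := key j (h0 j) i hi hir
  have h2 := gap_pow hq hn (r * j) i
  have hq0 : 0 < q := by linarith
  have h3 : q ≤ q ^ i := by
    calc q = q ^ 1 := (pow_one q).symm
      _ ≤ q ^ i := pow_le_pow_right₀ hq.le hi
  have h4 : (0 : ℝ) ≤ n (r * j) := Nat.cast_nonneg _
  have h5 : q * n (r * j) ≤ n (r * j + i) := by
    calc q * (n (r * j) : ℝ) ≤ q ^ i * n (r * j) := mul_le_mul_of_nonneg_right h3 h4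
      _ ≤ _ := h2
  calc _ ≤ _ := h1
    _ = (a + 1) / q * (q * n (r * j)) := by field_simp
    _ ≤ _ := by
      apply mul_le_mul_of_nonneg_left h5 (by positivity)

/-- choice of the sparse subsequence -/
theorem exists_sparse (hq : 1 < q) (hpos : ∀ k, 0 < n k)
    (hn : ∀ k, q * (n k : ℝ) ≤ (n (k + 1) : ℝ)) :
    ∃ r : ℕ, 1 ≤ r ∧ ∀ D : ℕ, ∃ k₀ : ℕ,
      (∀ m, k₀ ≤ m → r ∣ m → ∀ l, l < m → D + n l + TT n r k₀ m < n m) ∧
      (∀ l, k₀ ≤ l → D + TT n r k₀ l < n l) := by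
  have hq0 : 0 < q := by linarith
  set a : ℝ := (1 - 1 / q) / 2 with ha
  have hq1 : 1 / q < 1 := by
    rw [div_lt_one hq0]
    exact hq
  have hapos : 0 < a := by
    rw [ha]
    linarith
  obtain ⟨r, hr⟩ := pow_unbounded_of_one_lt ((a + 1) / a) hq
  have hr' : a + 1 ≤ a * q ^ (r + 1) := by
    have h1 : (a + 1) / a * a = a + 1 := by field_simp
    have h2 : q ^ r ≤ q ^ (r + 1) := pow_le_pow_right₀ hq.le (Nat.le_succ r)
    nlinarith
  refine ⟨r + 1, by omega, ?_⟩
  intro D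
  have hmono := gap_strictMono hq hpos hn
  obtain ⟨k₀, hk₀⟩ := exists_nat_gt ((D : ℝ) / a)
  have hD : ∀ m, k₀ ≤ m → (D : ℝ) < a * n m := by
    intro m hm
    have h1 : (m : ℝ) ≤ n m := by exact_mod_cast hmono.id_le m
    have h2 : (k₀ : ℝ) ≤ m := by exact_mod_cast hm
    rw [div_lt_iff₀ hapos] at hk₀
    nlinarith
  have hall : ∀ l, (TT n (r + 1) 0 l : ℝ) ≤ (a + 1) / q * n l := by
    intro l
    rcases Nat.eq_zero_or_pos l with h | h
    · subst h
      have : TT n (r + 1) 0 0 = 0 := by simp [TT]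
      rw [this]
      push_cast
      positivity
    · have h1 := (TT_bound hq hpos hn (by omega) hapos.le hr' ((l - 1) / (r + 1))).2
        ((l - 1) % (r + 1) + 1) (by omega) (by have := Nat.mod_lt (l - 1) (show 0 < r + 1 by omega); omega)
      have h2 : (r + 1) * ((l - 1) / (r + 1)) + ((l - 1) % (r + 1) + 1) = l := by
        have := Nat.div_add_mod (l - 1) (r + 1)
        omega
      rw [h2] at h1
      exact h1
  have hdvd : ∀ l, (r + 1) ∣ l → (TT n (r + 1) 0 l : ℝ) ≤ a * n l := by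
    rintro l ⟨j, rfl⟩
    exact (TT_bound hq hpos hn (by omega) hapos.le hr' j).1
  refine ⟨k₀, ?_, ?_⟩
  · intro m hm hrm l hl
    have h1 : (TT n (r + 1) k₀ m : ℝ) ≤ a * n m :=
      le_trans (by exact_mod_cast TT_le_zero n (r + 1) k₀ m) (hdvd m hrm)
    have h2 : q * (n l : ℝ) ≤ n m := by
      have h3 := gap_pow hq hn l (m - l)
      rw [Nat.add_sub_cancel' hl.le] at h3
      have h4 : q ≤ q ^ (m - l) := by
        calc q = q ^ 1 := (pow_one q).symm
          _ ≤ q ^ (m - l) := pow_le_pow_right₀ hq.le (by omega)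
      have h5 : (0 : ℝ) ≤ n l := Nat.cast_nonneg _
      nlinarith
    have h3 : (n l : ℝ) ≤ 1 / q * n m := by
      rw [one_div, ← div_eq_inv_mul, le_div_iff₀ hq0]
      linarith
    have h4 := hD m hm
    have h5 : (1 : ℝ) / q = 1 - 2 * a := by rw [ha]; ring
    have h6 : ((D + n l + TT n (r + 1) k₀ m : ℕ) : ℝ) < n m := by
      push_cast
      rw [h5] at h3
      nlinarith
    exact_mod_cast h6
  · intro l hl
    have h1 : (TT n (r + 1) k₀ l : ℝ) ≤ (a + 1) / q * n l :=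
      le_trans (by exact_mod_cast TT_le_zero n (r + 1) k₀ l) (hall l)
    have h4 := hD l hl
    have h5 : (1 : ℝ) / q = 1 - 2 * a := by rw [ha]; ring
    have h7 : (a + 1) / q = (a + 1) * (1 - 2 * a) := by
      rw [← h5]; ring
    have h8 : (0 : ℝ) ≤ n l := Nat.cast_nonneg _
    have h6 : ((D + TT n (r + 1) k₀ l : ℕ) : ℝ) < n l := by
      push_cast
      rw [h7] at h1
      nlinarith [mul_nonneg (mul_nonneg hapos.le hapos.le) h8]
    exact_mod_cast h6

end Pool.Agent.U155.Lac
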