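import Pool.Agent.U155.Lac.OneSided

set_option autoImplicit false

namespace Pool.Agent.U155.Lac

open MeasureTheory

theorem norm_II_le {f g : ℝ → ℂ} (hf : Continuous f) {C : ℝ} (hg : Continuous g) (h : ∀ x, ‖g x‖ ≤ C) :
    ‖II (f * g)‖ ≤ C * ∫ x in (0 : ℝ)..2 * Real.pi, ‖f x‖ := by
  have hpi : (0 : ℝ) ≤ 2 * Real.pi := by positivity
  unfold II
  refine (intervalIntegral.norm_integral_le_integral_norm hpi).trans ?_
  rw [← intervalIntegral.integral_const_mul]
  apply intervalIntegral.integral_mono_on hpi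
  · exact (hf.mul hg).norm.intervalIntegrable _ _
  · exact (hf.norm.const_smul C).intervalIntegrable _ _
  · intro x _
    rw [Pi.mul_apply, norm_mul, mul_comm]
    exact mul_le_mul_of_nonneg_right (h x) (norm_nonneg _)

theorem norm_cc_le (N : ℕ) (x : ℝ) : ‖cc N x‖ ≤ 1 := by
  unfold cc
  rw [Complex.norm_real]
  exact Real.abs_cos_le_one _

theorem mul_Sc (f : ℝ → ℂ) (n : ℕ → ℕ) (m : ℕ) :
    f * Sc n m = ∑ l ∈ Finset.range m, f * cc (n l) := by
  unfold Sc
  rw [Finset.mul_sum]

theorem sum_ite_lt_le (m k₀ : ℕ) {c : ℝ} (hc : 0 ≤ c) :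
    ∑ l ∈ Finset.range m, (if l < k₀ then c else 0) ≤ k₀ * c := by
  rw [← Finset.sum_filter, Finset.sum_const, nsmul_eq_mul]
  apply mul_le_mul_of_nonneg_right _ hc
  have : ((Finset.range m).filter (fun l => l < k₀)).card ≤ (Finset.range k₀).card := by
    apply Finset.card_le_card
    intro l hl
    simp only [Finset.mem_filter] at hl
    exact Finset.mem_range.mpr hl.2
  rw [Finset.card_range] at this
  exact_mod_cast this

variable {n : ℕ → ℕ} {r k₀ : ℕ}

theorem corr {D : ℕ} {φ : ℝ → ℂ} (hφ : φ ∈ TD D)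
    (hA : ∀ m, k₀ ≤ m → r ∣ m → ∀ l, l < m → D + n l + TT n r k₀ m < n m)
    (hB : ∀ l, k₀ ≤ l → D + TT n r k₀ l < n l) {lam : ℝ} (hlam : 0 ≤ lam) {m : ℕ}
    (hP : ∀ x, ‖PP n r k₀ lam m x‖ ≤ 2) :
    lam / 2 * (((Finset.range m).filter (fun l => k₀ ≤ l ∧ r ∣ l)).card : ℝ) * ‖II φ‖
      - k₀ * (2 * ∫ x in (0 : ℝ)..2 * Real.pi, ‖φ x‖) ≤ ‖II (φ * Sc n m * PP n r k₀ lam m)‖ := by
  have hφc := TD_continuous hφ
  have hPc := TD_continuous (PP_mem (n := n) (r := r) (k₀ := k₀) lam m)
  set Φ : ℝ := ∫ x in (0 : ℝ)..2 * Real.pi, ‖φ x‖ with hΦ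
  have hΦ0 : 0 ≤ Φ := intervalIntegral.integral_nonneg (by positivity) (fun x _ => norm_nonneg _)
  set c : ℂ := (lam : ℂ) * Complex.I * (1 / 2) * II φ with hc
  have e1 : φ * Sc n m * PP n r k₀ lam m = ∑ l ∈ Finset.range m, φ * cc (n l) * PP n r k₀ lam m := by
    rw [mul_Sc, Finset.sum_mul]
  have e2 : II (φ * Sc n m * PP n r k₀ lam m) =
      ∑ l ∈ Finset.range m, II (φ * cc (n l) * PP n r k₀ lam m) := by
    rw [e1, II_sum]
    intro l _
    exact (hφc.mul (continuous_cc _)).mul hPc
  set b : ℕ → ℂ := fun l => if l < k₀ then II (φ * cc (n l) * PP n r k₀ lam m) else 0 with hb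
  have e3 : ∀ l ∈ Finset.range m, II (φ * cc (n l) * PP n r k₀ lam m) =
      (if k₀ ≤ l ∧ r ∣ l then c else 0) + b l := by
    intro l hl
    by_cases h : l < k₀
    · rw [if_neg (by omega), hb]
      simp only [if_pos h, zero_add]
    · have h' : k₀ ≤ l := by omega
      rw [II_cc_PP hφ hA hB lam h' (Finset.mem_range.mp hl), hb]
      simp only [if_neg h, add_zero]
      by_cases h2 : r ∣ l
      · rw [if_pos h2, if_pos ⟨h', h2⟩]
      · rw [if_neg h2, if_neg (fun h3 => h2 h3.2)]
  rw [Finset.sum_congr rfl e3, Finset.sum_add_distrib, ← Finset.sum_filter, Finset.sum_const,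
    nsmul_eq_mul] at e2
  have hb' : ‖∑ l ∈ Finset.range m, b l‖ ≤ k₀ * (2 * Φ) := by
    refine (norm_sum_le _ _).trans ?_
    refine le_trans (Finset.sum_le_sum ?_) (sum_ite_lt_le m k₀ (by positivity))
    intro l _
    rw [hb]
    by_cases h : l < k₀
    · simp only [if_pos h]
      rw [mul_assoc]
      apply norm_II_le hφc ((continuous_cc _).mul hPc)
      intro x
      rw [Pi.mul_apply, norm_mul]
      calc _ ≤ (1 : ℝ) * 2 := mul_le_mul (norm_cc_le _ _) (hP x) (norm_nonneg _) (by norm_num)
        _ = 2 := by norm_num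
    · simp only [if_neg h, norm_zero, le_refl]
  have hcn : ‖c‖ = lam / 2 * ‖II φ‖ := by
    have h2 : ‖(1 / 2 : ℂ)‖ = 1 / 2 := by norm_num
    rw [hc, norm_mul, norm_mul, norm_mul, Complex.norm_real, Complex.norm_I, Real.norm_eq_abs,
      abs_of_nonneg hlam, h2]
    ring
  rw [e2]
  have h1 := norm_sub_le
    ((((Finset.range m).filter (fun l => k₀ ≤ l ∧ r ∣ l)).card : ℂ) * c + ∑ l ∈ Finset.range m, b l)
    (∑ l ∈ Finset.range m, b l)
  rw [add_sub_cancel_right, norm_mul, hcn, Complex.norm_natCast] at h1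
  linarith

theorem low {D : ℕ} {φ : ℝ → ℂ} (hφ : φ ∈ TD D)
    (hB : ∀ l, k₀ ≤ l → D + TT n r k₀ l < n l) (m : ℕ) :
    ‖II (φ * Sc n m)‖ ≤ k₀ * ∫ x in (0 : ℝ)..2 * Real.pi, ‖φ x‖ := by
  have hφc := TD_continuous hφ
  have hΦ0 : 0 ≤ ∫ x in (0 : ℝ)..2 * Real.pi, ‖φ x‖ :=
    intervalIntegral.integral_nonneg (by positivity) (fun x _ => norm_nonneg _)
  rw [mul_Sc, II_sum _ _ (fun l _ => hφc.mul (continuous_cc _))]
  refine (norm_sum_le _ _).trans ?_
  refine le_trans (Finset.sum_le_sum ?_) (sum_ite_lt_le m k₀ hΦ0)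
  intro l _
  by_cases h : l < k₀
  · rw [if_pos h]
    have := norm_II_le hφc (continuous_cc (n l)) (norm_cc_le (n l))
    rwa [one_mul] at this
  · rw [if_neg h, II_mul_cc _ hφ, norm_zero]
    have := hB l (by omega)
    omega


set_option maxHeartbeats 4000000 in
/-- If, on a set `E` of positive measure, every late partial sum is on one side of `ξ`,
we get a contradiction. -/
theorem one_sided {q : ℝ} (hq : 1 < q) (hpos : ∀ k, 0 < n k)
    (hn : ∀ k, q * (n k : ℝ) ≤ (n (k + 1) : ℝ)) {E : Set ℝ} (hE : MeasurableSet E)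
    (hE2 : E ⊆ Set.Ioc 0 (2 * Real.pi)) (ξ : ℝ) (M : ℕ)
    (h : ∀ m, M ≤ m → (∀ x ∈ E, ξ ≤ S n m x) ∨ (∀ x ∈ E, S n m x ≤ ξ)) : volume E = 0 := by
  by_contra hne
  have hpi : (0 : ℝ) ≤ 2 * Real.pi := by positivity
  have hfin : volume E < ⊤ := lt_of_le_of_lt (measure_mono hE2) measure_Ioc_lt_top
  set e : ℝ := (volume E).toReal with he
  have hepos : 0 < e := ENNReal.toReal_pos hne hfin.ne
  have hmono := gap_strictMono hq hpos hn
  obtain ⟨r, hr, hsp⟩ := exists_sparse hq hpos hn
  have hr0 : (0 : ℝ) < r := by exact_mod_cast hr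
  -- the indicator function
  set f : ℝ → ℂ := E.indicator (fun _ => (1 : ℂ)) with hf
  have hfm : MemLp f 2 (volume.restrict (Set.Ioc 0 (2 * Real.pi))) :=
    (memLp_const (1 : ℂ)).indicator hE
  set η : ℝ := e / (100 * r) with hη
  have hηpos : 0 < η := by positivity
  obtain ⟨D, φ, hφ, happ⟩ := exists_approx hfm (show 0 < η ^ 2 by positivity)
  obtain ⟨k₀, hA, hB⟩ := hsp D
  have hφc := TD_continuous hφ
  have hφm : MemLp φ 2 (volume.restrict (Set.Ioc 0 (2 * Real.pi))) := by
    have h1 : MemLp φ 2 (volume.restrict (Set.Icc 0 (2 * Real.pi))) := by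
      obtain ⟨C, hC⟩ := (isCompact_Icc (a := (0 : ℝ)) (b := 2 * Real.pi)).exists_bound_of_continuousOn
        hφc.continuousOn
      apply MemLp.of_bound hφc.aestronglyMeasurable C
      rw [ae_restrict_iff' measurableSet_Icc]
      exact Filter.Eventually.of_forall hC
    exact h1.mono_measure (Measure.restrict_mono Set.Ioc_subset_Icc_self le_rfl)
  set g : ℝ → ℂ := fun x => f x - φ x with hg
  have hgm : MemLp g 2 (volume.restrict (Set.Ioc 0 (2 * Real.pi))) := hfm.sub hφm
  set Φ : ℝ := ∫ x in (0 : ℝ)..2 * Real.pi, ‖φ x‖ with hΦ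
  have hΦ0 : 0 ≤ Φ := intervalIntegral.integral_nonneg hpi (fun x _ => norm_nonneg _)
  -- integrability helpers
  have hgi : ∀ s : ℝ → ℂ, Continuous s → IntervalIntegrable (fun x => g x * s x) volume 0 (2 * Real.pi) := by
    intro s hs
    apply IntervalIntegrable.mul_continuousOn _ hs.continuousOn
    rw [intervalIntegrable_iff_integrableOn_Ioc_of_le hpi]
    exact hgm.integrable (by norm_num)
  have hfE : ∀ s : ℝ → ℂ, Continuous s →
      ∫ x in (0 : ℝ)..2 * Real.pi, f x * s x = ∫ x in E, s x := by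
    intro s hs
    rw [intervalIntegral.integral_of_le hpi]
    have h1 : (fun x => f x * s x) = E.indicator s := by
      funext x
      rw [hf]
      by_cases hx : x ∈ E
      · simp [Set.indicator_of_mem hx]
      · simp [Set.indicator_of_notMem hx]
    rw [h1, setIntegral_indicator hE, Set.inter_eq_right.mpr hE2]
  have hEi : ∀ s : ℝ → ℝ, Continuous s → IntegrableOn s E volume := by
    intro s hs
    exact (hs.integrableOn_Icc (a := 0) (b := 2 * Real.pi)).mono_set
      (hE2.trans Set.Ioc_subset_Icc_self)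
  -- splitting
  have hsplit : ∀ s : ℝ → ℂ, Continuous s →
      ∫ x in E, s x = II (φ * s) + ∫ x in (0 : ℝ)..2 * Real.pi, g x * s x := by
    intro s hs
    rw [← hfE s hs]
    unfold II
    have i1 : IntervalIntegrable (fun x => (φ * s) x) volume 0 (2 * Real.pi) :=
      (hφc.mul hs).intervalIntegrable _ _
    rw [← intervalIntegral.integral_add i1 (hgi s hs)]
    congr 1
    funext x
    rw [hg, Pi.mul_apply]
    ring
  have hg1 : ∀ m : ℕ, 1 ≤ m → ∫ x in (0 : ℝ)..2 * Real.pi, ‖g x‖ * |S n m x| ≤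
      Real.sqrt m * η * ((1 + Real.pi) / 2) := by
    intro m hm
    have hm0 : (0 : ℝ) < m := by exact_mod_cast hm
    have hsq : 0 < Real.sqrt m := Real.sqrt_pos.mpr hm0
    have h1 := amgm hgm (continuous_S n m) (t := Real.sqrt m / η) (by positivity)
    rw [integral_sq hmono hpos] at h1
    have h2 : (Real.sqrt m / η * ∫ x in (0 : ℝ)..2 * Real.pi, ‖g x‖ ^ 2) ≤ Real.sqrt m / η * η ^ 2 :=
      mul_le_mul_of_nonneg_left happ.le (by positivity)
    have h3 : Real.sqrt m / η * η ^ 2 = Real.sqrt m * η := by field_simp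
    have h4 : (Real.sqrt m / η)⁻¹ * (Real.pi * m) = Real.sqrt m * η * Real.pi := by
      have : (m : ℝ) = Real.sqrt m * Real.sqrt m := (Real.mul_self_sqrt hm0.le).symm
      rw [inv_div]
      nth_rewrite 2 [this]
      field_simp
    rw [h4] at h1
    rw [h3] at h2
    linarith
  have hg2 : ∫ x in (0 : ℝ)..2 * Real.pi, ‖g x‖ ≤ η * ((1 + 2 * Real.pi) / 2) := by
    have h1 := amgm hgm (s := fun _ => 1) continuous_const (t := 1 / η) (by positivity)
    simp only [abs_one, mul_one, one_pow, intervalIntegral.integral_const, sub_zero, smul_eq_mul] at h1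
    have h2 : (1 / η * ∫ x in (0 : ℝ)..2 * Real.pi, ‖g x‖ ^ 2) ≤ 1 / η * η ^ 2 :=
      mul_le_mul_of_nonneg_left happ.le (by positivity)
    have h3 : 1 / η * η ^ 2 = η := by field_simp
    have h4 : (1 / η)⁻¹ = η := by simp
    rw [h4] at h1
    rw [h3] at h2
    linarith
  -- lower bound for the mean of φ
  have hmean : e - η * ((1 + 2 * Real.pi) / 2) ≤ ‖II φ‖ := by
    have h1 := hsplit (fun _ => 1) continuous_const
    have h2 : ∫ x in E, (1 : ℂ) = (e : ℂ) := by
      rw [setIntegral_const]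
      simp [he, Measure.real]
    have h3 : φ * (fun _ => (1 : ℂ)) = φ := by funext x; simp
    rw [h2, h3] at h1
    have h4 : ‖∫ x in (0 : ℝ)..2 * Real.pi, g x * 1‖ ≤ ∫ x in (0 : ℝ)..2 * Real.pi, ‖g x‖ := by
      simp only [mul_one]
      exact intervalIntegral.norm_integral_le_integral_norm hpi
    have h5 : e = ‖II φ + ∫ x in (0 : ℝ)..2 * Real.pi, g x * 1‖ := by
      rw [← h1, Complex.norm_real, Real.norm_eq_abs, abs_of_pos hepos]
    have h6 := norm_add_le (II φ) (∫ x in (0 : ℝ)..2 * Real.pi, g x * 1)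
    linarith
  -- the main inequality
  have main : ∀ j : ℕ, 1 ≤ j → M ≤ r * j →
      1 / (2 * Real.sqrt ((r * j : ℕ) : ℝ)) * (j - k₀) * (e - η * ((1 + 2 * Real.pi) / 2)) ≤
        2 * (Real.sqrt ((r * j : ℕ) : ℝ) * η * (1 + Real.pi)) + 4 * (k₀ * Φ) + 4 * (|ξ| * e) := by
    intro j hj hM
    set m : ℕ := r * j with hm
    have hm1 : 1 ≤ m := Nat.mul_pos hr hj
    have hm0 : (0 : ℝ) < m := by exact_mod_cast hm1
    have hsq : 0 < Real.sqrt m := Real.sqrt_pos.mpr hm0
    set lam : ℝ := 1 / Real.sqrt m with hlam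
    have hlam0 : 0 ≤ lam := by positivity
    have hlam2 : lam ^ 2 / 2 * m = 1 / 2 := by
      rw [hlam, div_pow, Real.sq_sqrt hm0.le]
      field_simp
    have hP : ∀ x, ‖PP n r k₀ lam m x‖ ≤ 2 := by
      intro x
      refine (PP_norm_le lam m x).trans ?_
      rw [hlam2]
      have h1 : Real.exp (1 / 2) ^ 2 ≤ 2 ^ 2 := by
        rw [← Real.exp_nat_mul]
        have h2 := Real.exp_one_lt_d9
        have h3 : ((2 : ℕ) : ℝ) * (1 / 2) = 1 := by norm_num
        rw [h3]
        linarith
      exact (sq_le_sq₀ (Real.exp_pos _).le (by norm_num)).mp h1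
    have hPc := TD_continuous (PP_mem (n := n) (r := r) (k₀ := k₀) lam m)
    have hSc := continuous_Sc n m
    have c1 := corr hφ hA hB hlam0 hP
    have c2 := low hφ hB m
    -- E-integral against the Riesz product
    have s1 := hsplit (Sc n m * PP n r k₀ lam m) (hSc.mul hPc)
    have s2 := hsplit (Sc n m) hSc
    have b1 : ‖∫ x in (0 : ℝ)..2 * Real.pi, g x * (Sc n m * PP n r k₀ lam m) x‖ ≤
        2 * (Real.sqrt m * η * ((1 + Real.pi) / 2)) := by
      refine (intervalIntegral.norm_integral_le_integral_norm hpi).trans ?_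
      refine le_trans ?_ (mul_le_mul_of_nonneg_left (hg1 m hm1) (by norm_num : (0 : ℝ) ≤ 2))
      rw [← intervalIntegral.integral_const_mul]
      apply intervalIntegral.integral_mono_on hpi
      · exact (hgi _ (hSc.mul hPc)).norm
      · have i3 : IntervalIntegrable (fun x => ‖g x‖) volume 0 (2 * Real.pi) := by
          rw [intervalIntegrable_iff_integrableOn_Ioc_of_le hpi]
          exact (hgm.integrable (by norm_num)).norm
        exact (i3.mul_continuousOn (continuous_S n m).abs.continuousOn).const_mul 2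
      · intro x _
        rw [norm_mul, Pi.mul_apply, norm_mul, Sc_apply, Complex.norm_real, Real.norm_eq_abs]
        have := hP x
        have h0 : 0 ≤ ‖g x‖ * |S n m x| := by positivity
        nlinarith
    have b2 : ‖∫ x in (0 : ℝ)..2 * Real.pi, g x * (Sc n m) x‖ ≤
        Real.sqrt m * η * ((1 + Real.pi) / 2) := by
      refine (intervalIntegral.norm_integral_le_integral_norm hpi).trans ?_
      refine le_trans (le_of_eq ?_) (hg1 m hm1)
      congr 1
      funext x
      rw [norm_mul, Sc_apply, Complex.norm_real, Real.norm_eq_abs]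
    have b3 : ‖∫ x in E, (Sc n m * PP n r k₀ lam m) x‖ ≤ 2 * ∫ x in E, |S n m x| := by
      refine (norm_integral_le_integral_norm _).trans ?_
      rw [← integral_const_mul]
      apply setIntegral_mono_on
      · exact (((hSc.mul hPc).norm).integrableOn_Icc (a := 0) (b := 2 * Real.pi)).mono_set
          (hE2.trans Set.Ioc_subset_Icc_self)
      · exact (hEi _ (continuous_S n m).abs).const_mul 2
      · exact hE
      · intro x _
        rw [Pi.mul_apply, norm_mul, Sc_apply, Complex.norm_real, Real.norm_eq_abs, mul_comm]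
        exact mul_le_mul_of_nonneg_right (hP x) (abs_nonneg _)
    have b4 : |∫ x in E, S n m x| ≤ k₀ * Φ + Real.sqrt m * η * ((1 + Real.pi) / 2) := by
      have h1 : ((∫ x in E, S n m x : ℝ) : ℂ) = ∫ x in E, Sc n m x := by
        rw [← integral_complex_ofReal]
        congr 1
        funext x
        exact (Sc_apply n m x).symm
      rw [← Real.norm_eq_abs, ← Complex.norm_real, h1, s2]
      exact (norm_add_le _ _).trans (add_le_add c2 b2)
    have b5 : ∫ x in E, |S n m x| ≤ |∫ x in E, S n m x| + 2 * (|ξ| * e) := by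
      have hSi := hEi _ (continuous_S n m)
      have hci : IntegrableOn (fun _ : ℝ => ξ) E volume := hEi _ continuous_const
      have hcc : ∫ x in E, ξ = e * ξ := by
        rw [setIntegral_const]
        simp [he, Measure.real]
      have hcc' : ∫ x in E, |ξ| = e * |ξ| := by
        rw [setIntegral_const]
        simp [he, Measure.real]
      have h1 : ∫ x in E, |S n m x| ≤ ∫ x in E, (|S n m x - ξ| + |ξ|) := by
        apply setIntegral_mono_on (hEi _ (continuous_S n m).abs) _ hE
        · intro x _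
          have := abs_add_le (S n m x - ξ) ξ
          simpa using this
        · exact hEi _ (((continuous_S n m).sub continuous_const).abs.add continuous_const)
      have h2 : ∫ x in E, (|S n m x - ξ| + |ξ|) = (∫ x in E, |S n m x - ξ|) + e * |ξ| := by
        have i1 : IntegrableOn (fun x => |S n m x - ξ|) E volume :=
          hEi _ ((continuous_S n m).sub continuous_const).abs
        have i2 : IntegrableOn (fun _ : ℝ => |ξ|) E volume := hEi _ continuous_const
        rw [integral_add i1 i2, hcc']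
      have h3 : ∫ x in E, |S n m x - ξ| = |(∫ x in E, S n m x) - e * ξ| := by
        rw [← hcc, ← integral_sub hSi hci]
        rcases h m hM with h' | h'
        · have e1 : ∫ x in E, |S n m x - ξ| = ∫ x in E, (S n m x - ξ) := by
            apply setIntegral_congr_fun hE
            intro x hx
            exact abs_of_nonneg (by have := h' x hx; linarith)
          have e2 : 0 ≤ ∫ x in E, (S n m x - ξ) := by
            apply setIntegral_nonneg hE
            intro x hx
            have := h' x hx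
            linarith
          rw [e1, abs_of_nonneg e2]
        · have e1 : ∫ x in E, |S n m x - ξ| = ∫ x in E, -(S n m x - ξ) := by
            apply setIntegral_congr_fun hE
            intro x hx
            exact abs_of_nonpos (by have := h' x hx; linarith)
          have e2 : ∫ x in E, (S n m x - ξ) ≤ 0 := by
            apply setIntegral_nonpos hE
            intro x hx
            have := h' x hx
            linarith
          rw [e1, abs_of_nonpos e2, integral_neg]
      have h4 : |(∫ x in E, S n m x) - e * ξ| ≤ |∫ x in E, S n m x| + e * |ξ| := by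
        refine (abs_sub _ _).trans ?_
        rw [abs_mul, abs_of_pos hepos]
      linarith
    -- combine
    have hassoc : φ * (Sc n m * PP n r k₀ lam m) = φ * Sc n m * PP n r k₀ lam m := (mul_assoc _ _ _).symm
    rw [hassoc] at s1
    have t1 : ‖II (φ * Sc n m * PP n r k₀ lam m)‖ ≤
        2 * (∫ x in E, |S n m x|) + 2 * (Real.sqrt m * η * ((1 + Real.pi) / 2)) := by
      have : II (φ * Sc n m * PP n r k₀ lam m) = (∫ x in E, (Sc n m * PP n r k₀ lam m) x) -
          ∫ x in (0 : ℝ)..2 * Real.pi, g x * (Sc n m * PP n r k₀ lam m) x := by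
        rw [s1]
        ring
      rw [this]
      exact (norm_sub_le _ _).trans (add_le_add b3 b1)
    have t2 : 1 / (2 * Real.sqrt m) * (j - k₀) * (e - η * ((1 + 2 * Real.pi) / 2)) ≤
        lam / 2 * (((Finset.range m).filter (fun l => k₀ ≤ l ∧ r ∣ l)).card : ℝ) * ‖II φ‖ := by
      have hl : lam / 2 = 1 / (2 * Real.sqrt m) := by
        rw [hlam]
        field_simp
      rw [hl]
      have hN := card_ge (k₀ := k₀) (j := j) hr
      have hpe : 0 ≤ e - η * ((1 + 2 * Real.pi) / 2) := by
        have h4 := Real.pi_le_four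
        have h5 : η ≤ e / 100 := by
          rw [hη]
          apply div_le_div_of_nonneg_left hepos.le (by norm_num)
          have : (1 : ℝ) ≤ r := by exact_mod_cast hr
          linarith
        nlinarith [Real.pi_pos]
      have hx : 0 ≤ 1 / (2 * Real.sqrt (m : ℝ)) := by positivity
      calc _ ≤ 1 / (2 * Real.sqrt m) * (((Finset.range m).filter (fun l => k₀ ≤ l ∧ r ∣ l)).card : ℝ)
            * (e - η * ((1 + 2 * Real.pi) / 2)) := by
            apply mul_le_mul_of_nonneg_right _ hpe
            exact mul_le_mul_of_nonneg_left hN hx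
        _ ≤ _ := by
            apply mul_le_mul_of_nonneg_left hmean
            positivity
    linarith
  -- contradiction for large j
  have hA0 : 0.9 * e ≤ e - η * ((1 + 2 * Real.pi) / 2) := by
    have h4 := Real.pi_le_four
    have h5 : η ≤ e / 100 := by
      rw [hη]
      apply div_le_div_of_nonneg_left hepos.le (by norm_num)
      have : (1 : ℝ) ≤ r := by exact_mod_cast hr
      linarith
    nlinarith [Real.pi_pos]
  set A : ℝ := e - η * ((1 + 2 * Real.pi) / 2) with hAdef
  set C : ℝ := k₀ * A + 4 * (k₀ * Φ) + 4 * (|ξ| * e) with hC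
  have hApos : 0 < A := by linarith
  have hCpos : 0 ≤ C := by positivity
  obtain ⟨j, hj⟩ := exists_nat_gt (max (M : ℝ) (((C * r / (0.3 * e)) ^ 2) / r + 1))
  have hjM : (M : ℝ) < j := lt_of_le_of_lt (le_max_left _ _) hj
  have hjC : ((C * r / (0.3 * e)) ^ 2) / r + 1 < j := lt_of_le_of_lt (le_max_right _ _) hj
  have hj1 : 1 ≤ j := by
    have h1 : (0 : ℝ) ≤ ((C * r / (0.3 * e)) ^ 2) / r := by positivity
    have h2 : (1 : ℝ) < j := by linarith
    exact_mod_cast h2.le
  have hMj : M ≤ r * j := by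
    have h1 : M < j := by exact_mod_cast hjM
    nlinarith
  have hmain := main j hj1 hMj
  have hm0 : (0 : ℝ) < ((r * j : ℕ) : ℝ) := by exact_mod_cast Nat.mul_pos hr hj1
  set s : ℝ := Real.sqrt ((r * j : ℕ) : ℝ) with hs
  have hspos : 0 < s := Real.sqrt_pos.mpr hm0
  have hs2 : s * s = r * j := by
    rw [hs, Real.mul_self_sqrt hm0.le]
    push_cast
    ring
  have hs1 : 1 ≤ s := by
    rw [hs]
    apply Real.one_le_sqrt.mpr
    exact_mod_cast Nat.mul_pos hr hj1
  have hsC : C * r / (0.3 * e) < s := by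
    have h1 : (C * r / (0.3 * e)) ^ 2 < s ^ 2 := by
      have h2 : (C * r / (0.3 * e)) ^ 2 / r < j := by linarith
      rw [div_lt_iff₀ hr0] at h2
      calc _ < (j : ℝ) * r := h2
        _ = s ^ 2 := by rw [pow_two, hs2]; ring
    exact lt_of_pow_lt_pow_left₀ 2 hspos.le h1
  have hsC' : C * r < 0.3 * e * s := by
    rw [div_lt_iff₀ (by positivity)] at hsC
    linarith
  -- 1/(2s) (j - k₀) A ≥ s A / (2 r) - k₀ A
  have hL : s * A / (2 * r) - k₀ * A ≤ 1 / (2 * s) * (j - k₀) * A := by
    have h1 : 1 / (2 * s) * (j : ℝ) = s / (2 * r) := by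
      rw [div_mul_eq_mul_div, one_mul, div_eq_div_iff (by positivity) (by positivity)]
      linear_combination (-2 : ℝ) * hs2
    have h2 : 1 / (2 * s) * (k₀ : ℝ) ≤ k₀ := by
      have : 1 / (2 * s) ≤ 1 := by
        rw [div_le_one (by positivity)]
        linarith
      calc _ ≤ 1 * (k₀ : ℝ) := mul_le_mul_of_nonneg_right this (Nat.cast_nonneg _)
        _ = k₀ := one_mul _
    have h3 : 1 / (2 * s) * (j - k₀) * A = s * A / (2 * r) - 1 / (2 * s) * (k₀ : ℝ) * A := by
      linear_combination A * h1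
    rw [h3]
    have := mul_le_mul_of_nonneg_right h2 hApos.le
    linarith
  have hR : 2 * (s * η * (1 + Real.pi)) ≤ 0.1 * e * s / r := by
    have h4 := Real.pi_le_four
    rw [hη]
    have : 2 * (s * (e / (100 * r)) * (1 + Real.pi)) = (0.02 * (1 + Real.pi)) * (e * s / r) := by
      field_simp
      norm_num
    rw [this]
    have h5 : 0 ≤ e * s / r := by positivity
    have h6 : 0.1 * e * s / r = 0.1 * (e * s / r) := by ring
    rw [h6]
    apply mul_le_mul_of_nonneg_right _ h5
    linarith
  have hL2 : 0.45 * (e * s / r) ≤ s * A / (2 * r) := by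
    have h1 : s * A / (2 * r) = 0.5 * (A * (s / r)) := by
      field_simp
      norm_num
    rw [h1]
    have h2 : 0 ≤ s / r := by positivity
    have h3 := mul_le_mul_of_nonneg_right hA0 h2
    have h4 : e * s / r = e * (s / r) := by ring
    rw [h4]
    linarith
  have hfinal : C < 0.3 * (e * s / r) := by
    have : 0.3 * (e * s / r) = 0.3 * e * s / r := by ring
    rw [this, lt_div_iff₀ hr0]
    exact hsC'
  have h6 : 0.1 * e * s / r = 0.1 * (e * s / r) := by ring
  rw [h6] at hR
  have hx : 0 ≤ e * s / r := by positivity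
  rw [hC] at hfinal
  linarith

end Pool.Agent.U155.Lac
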