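import Pool.Agent.U155.Lac.Gap
import Pool.Agent.U155.Lac.Approx

set_option autoImplicit false

namespace Pool.Agent.U155.Lac

open MeasureTheory

/-- partial sums of the lacunary cosine series -/
noncomputable def S (n : ℕ → ℕ) (m : ℕ) (x : ℝ) : ℝ := ∑ k ∈ Finset.range m, Real.cos ((n k : ℝ) * x)

/-- the same as complex valued functions -/
noncomputable def Sc (n : ℕ → ℕ) (m : ℕ) : ℝ → ℂ := ∑ k ∈ Finset.range m, cc (n k)

theorem Sc_apply (n : ℕ → ℕ) (m : ℕ) (x : ℝ) : Sc n m x = (S n m x : ℂ) := by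
  unfold Sc S cc
  simp

theorem continuous_S (n : ℕ → ℕ) (m : ℕ) : Continuous (S n m) := by
  unfold S
  fun_prop

theorem continuous_Sc (n : ℕ → ℕ) (m : ℕ) : Continuous (Sc n m) := by
  have : Sc n m = fun x => (S n m x : ℂ) := funext (Sc_apply n m)
  rw [this]
  exact Complex.continuous_ofReal.comp (continuous_S n m)

theorem integral_sq {n : ℕ → ℕ} (hmono : StrictMono n) (hpos : ∀ k, 0 < n k) (m : ℕ) :
    ∫ x in (0 : ℝ)..2 * Real.pi, (S n m x) ^ 2 = Real.pi * m := by
  have hpi : (0 : ℝ) < 2 * Real.pi := by positivity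
  have key : II (Sc n m * Sc n m) = (Real.pi * m : ℝ) := by
    induction m with
    | zero => simp [Sc, II]
    | succ m ih =>
      have hmem : Sc n m ∈ TD (n m - 1) := by
        refine Submodule.sum_mem _ fun k hk => ?_
        refine TD_mono ?_ (TD_cc (n k))
        have := hmono (Finset.mem_range.mp hk)
        omega
      have h0 : II (Sc n m * cc (n m)) = 0 := II_mul_cc (by have := hpos m; omega) hmem
      have h1 : II (cc (n m) * cc (n m)) = Real.pi := by
        rw [cc_sq, II_add (f := (1 / 2 : ℂ) • (1 : ℝ → ℂ)) (g := (1 / 2 : ℂ) • cc (2 * n m))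
          (continuous_const.const_smul _) ((continuous_cc _).const_smul _), II_smul, II_smul]
        have h2 : II (cc (2 * n m)) = 0 := by
          have h3 := II_mul_cc (show 0 < 2 * n m by have := hpos m; omega) (TD_const 1)
          have h4 : (fun _ : ℝ => (1 : ℂ)) * cc (2 * n m) = cc (2 * n m) := by
            funext x; simp
          rwa [h4] at h3
        rw [h2]
        unfold II
        simp
      have e : Sc n (m + 1) * Sc n (m + 1) =
          Sc n m * Sc n m + ((2 : ℂ) • (Sc n m * cc (n m)) + cc (n m) * cc (n m)) := by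
        have : Sc n (m + 1) = Sc n m + cc (n m) := by
          unfold Sc
          rw [Finset.sum_range_succ]
        rw [this]
        funext x
        simp only [Pi.add_apply, Pi.mul_apply, Pi.smul_apply, smul_eq_mul]
        ring
      have c1 := continuous_Sc n m
      have c2 := continuous_cc (n m)
      rw [e, II_add (c1.mul c1) (((c1.mul c2).const_smul _).add (c2.mul c2)),
        II_add ((c1.mul c2).const_smul _) (c2.mul c2), II_smul, h0, h1, ih]
      push_cast
      ring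
  unfold II at key
  have h2 : ∀ x : ℝ, (Sc n m * Sc n m) x = (((S n m x) ^ 2 : ℝ) : ℂ) := by
    intro x
    rw [Pi.mul_apply, Sc_apply]
    push_cast
    ring
  simp only [h2] at key
  rw [intervalIntegral.integral_ofReal] at key
  exact_mod_cast key

theorem amgm {g : ℝ → ℂ} (hg : MemLp g 2 (volume.restrict (Set.Ioc 0 (2 * Real.pi))))
    {s : ℝ → ℝ} (hs : Continuous s) {t : ℝ} (ht : 0 < t) :
    ∫ x in (0 : ℝ)..2 * Real.pi, ‖g x‖ * |s x| ≤
      (t * ∫ x in (0 : ℝ)..2 * Real.pi, ‖g x‖ ^ 2) / 2 +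
      (t⁻¹ * ∫ x in (0 : ℝ)..2 * Real.pi, (s x) ^ 2) / 2 := by
  have hpi : (0 : ℝ) ≤ 2 * Real.pi := by positivity
  have i1 : IntervalIntegrable (fun x => ‖g x‖ ^ 2) volume 0 (2 * Real.pi) := by
    rw [intervalIntegrable_iff_integrableOn_Ioc_of_le hpi]
    exact hg.integrable_norm_pow two_ne_zero
  have i2 : IntervalIntegrable (fun x => (s x) ^ 2) volume 0 (2 * Real.pi) :=
    (hs.pow 2).intervalIntegrable _ _
  have i3 : IntervalIntegrable (fun x => ‖g x‖) volume 0 (2 * Real.pi) := by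
    rw [intervalIntegrable_iff_integrableOn_Ioc_of_le hpi]
    exact (hg.integrable (by norm_num)).norm
  have i4 : IntervalIntegrable (fun x => ‖g x‖ * |s x|) volume 0 (2 * Real.pi) :=
    i3.mul_continuousOn hs.abs.continuousOn
  have h : ∫ x in (0 : ℝ)..2 * Real.pi, ‖g x‖ * |s x| ≤
      ∫ x in (0 : ℝ)..2 * Real.pi, (t / 2 * ‖g x‖ ^ 2 + t⁻¹ / 2 * (s x) ^ 2) := by
    apply intervalIntegral.integral_mono_on hpi i4 ((i1.const_mul _).add (i2.const_mul _))
    intro x _
    have h1 : 0 ≤ (t * ‖g x‖ - |s x|) ^ 2 := sq_nonneg _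
    have h2 : |s x| ^ 2 = (s x) ^ 2 := sq_abs _
    have h3 : t⁻¹ * t = 1 := inv_mul_cancel₀ ht.ne'
    have h4 : 0 < t⁻¹ := inv_pos.mpr ht
    have h5 : 0 ≤ t⁻¹ * (t * ‖g x‖ - |s x|) ^ 2 := mul_nonneg h4.le h1
    have h6 : t⁻¹ * (t * ‖g x‖ - |s x|) ^ 2 = t * ‖g x‖ ^ 2 - 2 * ‖g x‖ * |s x| + t⁻¹ * (s x) ^ 2 := by
      rw [← h2]
      linear_combination (t * ‖g x‖ ^ 2 - 2 * ‖g x‖ * |s x|) * h3
    linarith
  rw [intervalIntegral.integral_add (i1.const_mul _) (i2.const_mul _),
    intervalIntegral.integral_const_mul, intervalIntegral.integral_const_mul] at h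
  linarith

theorem card_ge {r k₀ j : ℕ} (hr : 1 ≤ r) :
    (j : ℝ) - k₀ ≤ (((Finset.range (r * j)).filter (fun l => k₀ ≤ l ∧ r ∣ l)).card : ℝ) := by
  have h : j - k₀ ≤ ((Finset.range (r * j)).filter (fun l => k₀ ≤ l ∧ r ∣ l)).card := by
    rw [← Nat.card_Ico k₀ j]
    apply Finset.card_le_card_of_injOn (fun i => r * i)
    · intro i hi
      simp only [Finset.coe_Ico, Set.mem_Ico] at hi
      simp only [Finset.coe_filter, Finset.mem_range, Set.mem_ofPred_eq]
      refine ⟨Nat.mul_lt_mul_of_pos_left hi.2 (by omega), ?_, dvd_mul_right _ _⟩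
      calc k₀ ≤ i := hi.1
        _ = 1 * i := (one_mul i).symm
        _ ≤ r * i := Nat.mul_le_mul_right i hr
    · intro a _ b _ hab
      exact Nat.eq_of_mul_eq_mul_left (by omega) hab
  have h2 : ((j - k₀ : ℕ) : ℝ) ≤ (((Finset.range (r * j)).filter (fun l => k₀ ≤ l ∧ r ∣ l)).card : ℝ) := by
    exact_mod_cast h
  have h3 : (j : ℝ) - k₀ ≤ ((j - k₀ : ℕ) : ℝ) := by
    rcases le_total k₀ j with h | h
    · rw [Nat.cast_sub h]
    · rw [Nat.sub_eq_zero_of_le h]
      have : (j : ℝ) ≤ k₀ := by exact_mod_cast h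
      simpa using this
  linarith

end Pool.Agent.U155.Lac
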