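import Pool.Agent.U155.Lac.Trig

set_option autoImplicit false

namespace Pool.Agent.U155.Lac

open MeasureTheory

/-- integral over a period -/
noncomputable def II (f : ℝ → ℂ) : ℂ := ∫ x in (0 : ℝ)..2 * Real.pi, f x

theorem II_add {f g : ℝ → ℂ} (hf : Continuous f) (hg : Continuous g) : II (f + g) = II f + II g :=
  intervalIntegral.integral_add (hf.intervalIntegrable _ _) (hg.intervalIntegrable _ _)

theorem II_smul (c : ℂ) (f : ℝ → ℂ) : II (c • f) = c * II f :=
  intervalIntegral.integral_const_mul c f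

theorem II_sum {ι : Type*} (s : Finset ι) (f : ι → ℝ → ℂ) (hf : ∀ i ∈ s, Continuous (f i)) :
    II (∑ i ∈ s, f i) = ∑ i ∈ s, II (f i) := by
  unfold II
  rw [← intervalIntegral.integral_finsetSum]
  · simp only [Finset.sum_apply]
  · intro i hi
    exact (hf i hi).intervalIntegrable _ _

theorem II_mul_cc {X N : ℕ} (h : X < N) {f : ℝ → ℂ} (hf : f ∈ TD X) : II (f * cc N) = 0 :=
  integral_mul_cc h hf

theorem cc_sq (N : ℕ) : cc N * cc N = (1 / 2 : ℂ) • (1 : ℝ → ℂ) + (1 / 2 : ℂ) • cc (2 * N) := by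
  funext x
  simp only [cc, Pi.mul_apply, Pi.add_apply, Pi.smul_apply, Pi.one_apply, smul_eq_mul]
  have : Real.cos (((2 * N : ℕ) : ℝ) * x) = 2 * Real.cos ((N : ℝ) * x) ^ 2 - 1 := by
    rw [← Real.cos_two_mul]
    congr 1
    push_cast
    ring
  rw [this]
  push_cast
  ring

variable (n : ℕ → ℕ) (r k₀ : ℕ)

/-- the degree of the Riesz product -/
def TT (m : ℕ) : ℕ := ∑ k ∈ Finset.range m, if k₀ ≤ k ∧ r ∣ k then n k else 0

open scoped Classical in
/-- the Riesz product `∏ (1 + i λ cos (n_k x))` over the multiples `k ≥ k₀` of `r`, `k < m` -/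
noncomputable def PP (lam : ℝ) (m : ℕ) : ℝ → ℂ :=
  ∏ k ∈ Finset.range m,
    if k₀ ≤ k ∧ r ∣ k then (1 : ℝ → ℂ) + ((lam : ℂ) * Complex.I) • cc (n k) else 1

variable {n r k₀}

theorem PP_succ_pos (lam : ℝ) {m : ℕ} (h : k₀ ≤ m ∧ r ∣ m) :
    PP n r k₀ lam (m + 1) = PP n r k₀ lam m + ((lam : ℂ) * Complex.I) • (PP n r k₀ lam m * cc (n m)) := by
  unfold PP
  rw [Finset.prod_range_succ, if_pos h, mul_add, mul_one, mul_smul_comm]

theorem PP_succ_neg (lam : ℝ) {m : ℕ} (h : ¬ (k₀ ≤ m ∧ r ∣ m)) :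
    PP n r k₀ lam (m + 1) = PP n r k₀ lam m := by
  unfold PP
  rw [Finset.prod_range_succ, if_neg h, mul_one]

theorem TT_succ_pos {m : ℕ} (h : k₀ ≤ m ∧ r ∣ m) : TT n r k₀ (m + 1) = TT n r k₀ m + n m := by
  unfold TT
  rw [Finset.sum_range_succ, if_pos h]

theorem TT_succ_neg {m : ℕ} (h : ¬ (k₀ ≤ m ∧ r ∣ m)) : TT n r k₀ (m + 1) = TT n r k₀ m := by
  unfold TT
  rw [Finset.sum_range_succ, if_neg h, add_zero]

theorem PP_mem (lam : ℝ) (m : ℕ) : PP n r k₀ lam m ∈ TD (TT n r k₀ m) := by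
  induction m with
  | zero =>
    have : PP n r k₀ lam 0 = fun _ => (1 : ℂ) := by
      unfold PP
      simp
      rfl
    rw [this]
    exact TD_const 1
  | succ m ih =>
    by_cases h : k₀ ≤ m ∧ r ∣ m
    · rw [PP_succ_pos lam h, TT_succ_pos h]
      exact Submodule.add_mem _ (TD_mono (Nat.le_add_right _ _) ih)
        (Submodule.smul_mem _ _ (TD_mul ih (TD_cc _)))
    · rw [PP_succ_neg lam h, TT_succ_neg h]
      exact ih

theorem PP_norm_le (lam : ℝ) (m : ℕ) (x : ℝ) : ‖PP n r k₀ lam m x‖ ≤ Real.exp (lam ^ 2 / 2 * m) := by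
  induction m with
  | zero =>
    simp [PP]
  | succ m ih =>
    have hle : Real.exp (lam ^ 2 / 2 * m) ≤ Real.exp (lam ^ 2 / 2 * (m + 1 : ℕ)) := by
      apply Real.exp_le_exp.mpr
      push_cast
      nlinarith [sq_nonneg lam]
    by_cases h : k₀ ≤ m ∧ r ∣ m
    · have e : PP n r k₀ lam (m + 1) x = PP n r k₀ lam m x * (1 + (lam * Real.cos (n m * x) : ℝ) * Complex.I) := by
        rw [PP_succ_pos lam h]
        simp only [Pi.add_apply, Pi.smul_apply, Pi.mul_apply, smul_eq_mul, cc]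
        push_cast
        ring
      rw [e, norm_mul]
      have h1 : ‖(1 : ℂ) + (lam * Real.cos (n m * x) : ℝ) * Complex.I‖ ≤ Real.exp (lam ^ 2 / 2) := by
        have h2 : ‖(1 : ℂ) + (lam * Real.cos (n m * x) : ℝ) * Complex.I‖ ^ 2 ≤ Real.exp (lam ^ 2 / 2) ^ 2 := by
          rw [← Complex.normSq_eq_norm_sq]
          have : (1 : ℂ) + (lam * Real.cos (n m * x) : ℝ) * Complex.I
              = ((1 : ℝ) : ℂ) + (lam * Real.cos (n m * x) : ℝ) * Complex.I := by simp
          rw [this, Complex.normSq_add_mul_I, ← Real.exp_nat_mul]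
          have h3 : (lam * Real.cos (n m * x)) ^ 2 ≤ lam ^ 2 := by
            rw [mul_pow]
            have := Real.cos_sq_le_one (n m * x)
            nlinarith [sq_nonneg lam]
          have h4 := Real.add_one_le_exp (lam ^ 2)
          have h5 : ((2 : ℕ) : ℝ) * (lam ^ 2 / 2) = lam ^ 2 := by push_cast; ring
          rw [h5]
          linarith
        exact (sq_le_sq₀ (norm_nonneg _) (Real.exp_pos _).le).mp h2
      calc _ ≤ Real.exp (lam ^ 2 / 2 * m) * Real.exp (lam ^ 2 / 2) :=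
            mul_le_mul ih h1 (norm_nonneg _) (Real.exp_pos _).le
        _ = _ := by
            rw [← Real.exp_add]
            congr 1
            push_cast
            ring
    · rw [PP_succ_neg lam h]
      exact ih.trans hle

/-- The Riesz product has the same mean as `1` against `φ`. -/
theorem II_PP {D : ℕ} {φ : ℝ → ℂ} (hφ : φ ∈ TD D)
    (hB : ∀ l, k₀ ≤ l → D + TT n r k₀ l < n l) (lam : ℝ) (m : ℕ) :
    II (φ * PP n r k₀ lam m) = II φ := by
  induction m with
  | zero => simp [PP]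
  | succ m ih =>
    by_cases h : k₀ ≤ m ∧ r ∣ m
    · have hm : φ * PP n r k₀ lam m ∈ TD (D + TT n r k₀ m) := TD_mul hφ (PP_mem lam m)
      have hc := TD_continuous hm
      rw [PP_succ_pos lam h, mul_add, mul_smul_comm, ← mul_assoc, II_add hc
        ((hc.mul (continuous_cc _)).const_smul _), II_smul, II_mul_cc (hB m h.1) hm, ih]
      simp
    · rw [PP_succ_neg lam h, ih]

/-- correlation of the Riesz product with the individual cosines -/
theorem II_cc_PP {D : ℕ} {φ : ℝ → ℂ} (hφ : φ ∈ TD D)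
    (hA : ∀ m, k₀ ≤ m → r ∣ m → ∀ l, l < m → D + n l + TT n r k₀ m < n m)
    (hB : ∀ l, k₀ ≤ l → D + TT n r k₀ l < n l) (lam : ℝ) {l : ℕ} (hl : k₀ ≤ l) {m : ℕ} (hm : l < m) :
    II (φ * cc (n l) * PP n r k₀ lam m) =
      if r ∣ l then (lam : ℂ) * Complex.I * (1 / 2) * II φ else 0 := by
  induction m, hm using Nat.le_induction with
  | base =>
    have hmem : φ * PP n r k₀ lam l ∈ TD (D + TT n r k₀ l) := TD_mul hφ (PP_mem lam l)
    have hc := TD_continuous hmem
    have h0 : II (φ * PP n r k₀ lam l * cc (n l)) = 0 := II_mul_cc (hB l hl) hmem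
    by_cases h : r ∣ l
    · rw [if_pos h, Nat.succ_eq_add_one, PP_succ_pos lam ⟨hl, h⟩]
      have e : φ * cc (n l) * (PP n r k₀ lam l + ((lam : ℂ) * Complex.I) • (PP n r k₀ lam l * cc (n l)))
          = φ * PP n r k₀ lam l * cc (n l) +
            ((lam : ℂ) * Complex.I * (1 / 2)) • (φ * PP n r k₀ lam l) +
            ((lam : ℂ) * Complex.I * (1 / 2)) • (φ * PP n r k₀ lam l * cc (2 * n l)) := by
        have := cc_sq (n l)
        funext x
        have hx := congrFun this x
        simp only [Pi.mul_apply, Pi.add_apply, Pi.smul_apply, Pi.one_apply, smul_eq_mul] at hx ⊢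
        linear_combination (φ x * (lam : ℂ) * Complex.I * PP n r k₀ lam l x) * hx
      rw [e, II_add, II_add, h0, II_smul, II_smul, II_PP hφ hB, II_mul_cc _ hmem]
      · ring
      · have := hB l hl
        omega
      · exact hc.mul (continuous_cc _)
      · exact hc.const_smul _
      · exact (hc.mul (continuous_cc _)).add (hc.const_smul _)
      · exact (hc.mul (continuous_cc _)).const_smul _
    · rw [if_neg h, Nat.succ_eq_add_one, PP_succ_neg lam (fun h' => h h'.2), mul_right_comm]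
      exact h0
  | succ m hm ih =>
    by_cases h : k₀ ≤ m ∧ r ∣ m
    · have hmem : φ * cc (n l) * PP n r k₀ lam m ∈ TD (D + n l + TT n r k₀ m) :=
        TD_mul (TD_mul hφ (TD_cc _)) (PP_mem lam m)
      have hc := TD_continuous hmem
      rw [PP_succ_pos lam h, mul_add, mul_smul_comm, ← mul_assoc, II_add hc
        ((hc.mul (continuous_cc _)).const_smul _), II_smul,
        II_mul_cc (hA m h.1 h.2 l hm) hmem, ih]
      simp
    · rw [PP_succ_neg lam h, ih]

end Pool.Agent.U155.Lac
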