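import Mathlib

set_option autoImplicit false

namespace Pool.Agent.U155.Lac

open MeasureTheory

/-- the exponential `x ↦ e^{ikx}` -/
noncomputable def ee (k : ℤ) : ℝ → ℂ := fun x => Complex.exp ((k : ℂ) * Complex.I * (x : ℂ))

/-- trigonometric polynomials of degree at most `X` -/
noncomputable def TD (X : ℕ) : Submodule ℂ (ℝ → ℂ) :=
  Submodule.span ℂ (ee '' {k : ℤ | |k| ≤ (X : ℤ)})

theorem ee_mem {k : ℤ} {X : ℕ} (h : |k| ≤ (X : ℤ)) : ee k ∈ TD X :=
  Submodule.subset_span ⟨k, h, rfl⟩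

theorem ee_mul (k l : ℤ) : ee k * ee l = ee (k + l) := by
  funext x
  simp only [Pi.mul_apply, ee]
  rw [← Complex.exp_add]
  congr 1
  push_cast
  ring

theorem TD_mono {X Y : ℕ} (h : X ≤ Y) : TD X ≤ TD Y := by
  apply Submodule.span_mono
  apply Set.image_mono
  intro k hk
  simp only [Set.mem_ofPred_eq] at hk ⊢
  have : (X : ℤ) ≤ (Y : ℤ) := by exact_mod_cast h
  omega

theorem TD_mul {X Y : ℕ} {f g : ℝ → ℂ} (hf : f ∈ TD X) (hg : g ∈ TD Y) : f * g ∈ TD (X + Y) := by
  have h1 : f * g ∈ TD X * TD Y := Submodule.mul_mem_mul hf hg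
  rw [TD, TD, Submodule.span_mul_span] at h1
  refine Submodule.span_mono ?_ h1
  rintro _ ⟨_, ⟨k, hk, rfl⟩, _, ⟨l, hl, rfl⟩, rfl⟩
  refine ⟨k + l, ?_, ?_⟩
  · simp only [Set.mem_ofPred_eq] at *
    push_cast
    exact (abs_add_le k l).trans (add_le_add hk hl)
  · exact (ee_mul k l).symm

theorem TD_const (c : ℂ) : (fun _ : ℝ => c) ∈ TD 0 := by
  have h : (fun _ : ℝ => c) = c • ee 0 := by
    funext x
    simp [ee]
  rw [h]
  exact Submodule.smul_mem _ _ (ee_mem (by simp))

/-- `x ↦ cos (N x)` as a complex valued function -/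
noncomputable def cc (N : ℕ) : ℝ → ℂ := fun x => ((Real.cos ((N : ℝ) * x) : ℝ) : ℂ)

theorem cc_eq (N : ℕ) : cc N = (1 / 2 : ℂ) • ee N + (1 / 2 : ℂ) • ee (-N) := by
  funext x
  simp only [cc, ee, Pi.add_apply, Pi.smul_apply, smul_eq_mul]
  rw [Complex.ofReal_cos, Complex.cos]
  push_cast
  have h1 : (N : ℂ) * (x : ℂ) * Complex.I = (N : ℂ) * Complex.I * x := by ring
  have h2 : -((N : ℂ) * (x : ℂ)) * Complex.I = -(N : ℂ) * Complex.I * x := by ring
  rw [h1, h2]
  ring

theorem TD_cc (N : ℕ) : cc N ∈ TD N := by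
  rw [cc_eq]
  refine Submodule.add_mem _ (Submodule.smul_mem _ _ (ee_mem ?_)) (Submodule.smul_mem _ _ (ee_mem ?_))
  · simp
  · simp

theorem continuous_ee (k : ℤ) : Continuous (ee k) := by
  unfold ee
  fun_prop

theorem continuous_cc (N : ℕ) : Continuous (cc N) := by
  unfold cc
  fun_prop

theorem TD_continuous {X : ℕ} {f : ℝ → ℂ} (hf : f ∈ TD X) : Continuous f := by
  refine Submodule.span_induction (p := fun g _ => Continuous g) ?_ ?_ ?_ ?_ hf
  · rintro _ ⟨k, _, rfl⟩
    exact continuous_ee k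
  · exact continuous_const
  · intro f g _ _ hf hg
    exact hf.add hg
  · intro c f _ hf
    exact hf.const_smul c

theorem integral_ee {k : ℤ} (hk : k ≠ 0) : ∫ x in (0 : ℝ)..2 * Real.pi, ee k x = 0 := by
  have hk' : (k : ℂ) * Complex.I ≠ 0 := by
    simp [hk]
  unfold ee
  rw [integral_exp_mul_complex hk']
  have h1 : Complex.exp ((k : ℂ) * Complex.I * ((2 * Real.pi : ℝ) : ℂ)) = 1 := by
    rw [Complex.exp_eq_one_iff]
    refine ⟨k, ?_⟩
    push_cast
    ring
  rw [h1]
  simp

/-- a trigonometric polynomial of degree less than `N` is orthogonal to `cos (N x)` -/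
theorem integral_mul_cc {X N : ℕ} (h : X < N) {f : ℝ → ℂ} (hf : f ∈ TD X) :
    ∫ x in (0 : ℝ)..2 * Real.pi, f x * cc N x = 0 := by
  have key : Continuous f ∧ ∫ x in (0 : ℝ)..2 * Real.pi, f x * cc N x = 0 := by
    refine Submodule.span_induction
      (p := fun g _ => Continuous g ∧ ∫ x in (0 : ℝ)..2 * Real.pi, g x * cc N x = 0) ?_ ?_ ?_ ?_ hf
    · rintro _ ⟨k, hk, rfl⟩
      refine ⟨continuous_ee k, ?_⟩
      simp only [Set.mem_ofPred_eq] at hk
      have h1 : ∀ x : ℝ, ee k x * cc N x = (1 / 2 : ℂ) * ee (k + N) x + (1 / 2 : ℂ) * ee (k - N) x := by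
        intro x
        have e1 := congrFun (ee_mul k N) x
        have e2 := congrFun (ee_mul k (-N)) x
        rw [cc_eq]
        simp only [Pi.add_apply, Pi.smul_apply, smul_eq_mul, Pi.mul_apply] at e1 e2 ⊢
        rw [sub_eq_add_neg, ← e1, ← e2]
        ring
      simp only [h1]
      have hN : (X : ℤ) < N := by exact_mod_cast h
      have hk1 := abs_le.mp hk
      rw [intervalIntegral.integral_add, intervalIntegral.integral_const_mul,
        intervalIntegral.integral_const_mul, integral_ee, integral_ee]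
      · simp
      · omega
      · omega
      · exact ((continuous_ee _).const_smul (1 / 2 : ℂ)).intervalIntegrable _ _
      · exact ((continuous_ee _).const_smul (1 / 2 : ℂ)).intervalIntegrable _ _
    · exact ⟨continuous_const, by simp⟩
    · rintro f g _ _ ⟨hf, hf'⟩ ⟨hg, hg'⟩
      refine ⟨hf.add hg, ?_⟩
      simp only [Pi.add_apply, add_mul]
      have i1 : IntervalIntegrable (fun x => f x * cc N x) volume 0 (2 * Real.pi) :=
        (hf.mul (continuous_cc N)).intervalIntegrable _ _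
      have i2 : IntervalIntegrable (fun x => g x * cc N x) volume 0 (2 * Real.pi) :=
        (hg.mul (continuous_cc N)).intervalIntegrable _ _
      rw [intervalIntegral.integral_add i1 i2, hf', hg', add_zero]
    · rintro c f _ ⟨hf, hf'⟩
      refine ⟨hf.const_smul c, ?_⟩
      simp only [Pi.smul_apply, smul_eq_mul, mul_assoc]
      rw [intervalIntegral.integral_const_mul, hf', mul_zero]
  exact key.2

end Pool.Agent.U155.Lac
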